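import Mathlib.GroupTheory.Perm.Cycle.Basic
import Mathlib.GroupTheory.Perm.Option
import Mathlib.SetTheory.Cardinal.Finite
import Mathlib.Algebra.BigOperators.Fin

/-!
# Counting cyclic permutations with prescribed target classes: the recursion
-/

set_option autoImplicit false

namespace Pool.Agent.Q221.Lift

open Equiv Finset

/-- `τ` is one single cycle through all points -/
def Single {V : Type} (τ : Perm V) : Prop := ∀ x y, τ.SameCycle x y

/-- the number of permutations which are one single cycle and send each `v` into the class
`f v` -/
noncomputable def cyc {V : Type} (c f : V → Fin 3) : ℕ :=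
  Nat.card {τ : Perm V // Single τ ∧ ∀ v, c (τ v) = f v}

theorem single_conj {V W : Type} (e : V ≃ W) (τ : Perm V) :
    Single (e.permCongr τ) ↔ Single τ := by
  have key : ∀ x y : V, (e.permCongr τ).SameCycle (e x) (e y) ↔ τ.SameCycle x y := by
    intro x y
    have h : ∀ (i : ℤ) (z : V), ((e.permCongr τ) ^ i) (e z) = e ((τ ^ i) z) := by
      intro i z
      have : (e.permCongr τ) ^ i = e.permCongr (τ ^ i) := by
        have := map_zpow (e.permCongrHom) τ i
        simpa using this.symm
      rw [this]
      simp [Equiv.permCongr_apply]
    constructor
    · rintro ⟨i, hi⟩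
      rw [h] at hi
      exact ⟨i, e.injective hi⟩
    · rintro ⟨i, hi⟩
      exact ⟨i, by rw [h, hi]⟩
  constructor
  · intro h x y
    exact (key x y).1 (h _ _)
  · intro h x y
    have := (key (e.symm x) (e.symm y)).2 (h _ _)
    simpa using this

theorem cyc_congr {V W : Type} (e : V ≃ W) (c f : V → Fin 3) :
    cyc c f = cyc (c ∘ e.symm) (f ∘ e.symm) := by
  unfold cyc
  refine Nat.card_congr (Equiv.subtypeEquiv e.permCongr ?_)
  intro τ
  rw [single_conj]
  refine and_congr_right fun _ => ?_
  constructor
  · intro h w
    have := h (e.symm w)
    simpa [Equiv.permCongr_apply] using this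
  · intro h v
    have := h (e v)
    simpa [Equiv.permCongr_apply] using this

/-- insertion of `none` into a permutation, after the point `x0` -/
def ins {α : Type} [DecidableEq α] (x0 : α) (σ : Perm α) : Perm (Option α) :=
  optionCongr σ * swap none (some x0)

section ins
variable {α : Type} [DecidableEq α] (x0 : α) (σ : Perm α)

theorem ins_none : ins x0 σ none = some (σ x0) := by
  simp [ins]

theorem ins_self : ins x0 σ (some x0) = none := by
  simp [ins]

theorem ins_of_ne {x : α} (h : x ≠ x0) : ins x0 σ (some x) = some (σ x) := by
  unfold ins
  rw [Perm.mul_apply, swap_apply_of_ne_of_ne (by simp) (by simpa using h)]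
  simp

theorem single_ins [Finite α] : Single (ins x0 σ) ↔ Single σ := by
  constructor
  · intro h
    -- project: `none` is identified with `σ x0`
    let p : Option α → α := fun o => o.elim (σ x0) id
    have hp : ∀ v, σ.SameCycle (p v) (p (ins x0 σ v)) := by
      intro v
      cases v with
      | none =>
        rw [ins_none]
        exact Perm.SameCycle.refl _ _
      | some x =>
        by_cases hx : x = x0
        · subst hx
          rw [ins_self]
          exact (Perm.sameCycle_apply_right).2 (Perm.SameCycle.refl _ _)
        · rw [ins_of_ne x0 σ hx]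
          exact (Perm.sameCycle_apply_right).2 (Perm.SameCycle.refl _ _)
    have hpow : ∀ (n : ℕ) (v : Option α), σ.SameCycle (p v) (p (((ins x0 σ) ^ n) v)) := by
      intro n
      induction n with
      | zero => intro v; exact Perm.SameCycle.refl _ _
      | succ n ih =>
        intro v
        rw [pow_succ', Perm.mul_apply]
        exact (ih v).trans (hp _)
    intro x y
    obtain ⟨n, hn⟩ := (h (some x) (some y)).exists_nat_pow_eq
    have := hpow n (some x)
    rw [hn] at this
    exact this
  · intro h
    have h1 : ∀ x, (ins x0 σ).SameCycle (some x) (some (σ x)) := by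
      intro x
      by_cases hx : x = x0
      · subst hx
        refine ⟨2, ?_⟩
        rw [show ((2 : ℤ)) = 1 + 1 from rfl, zpow_add, zpow_one, Perm.mul_apply, ins_self, ins_none]
      · refine ⟨1, ?_⟩
        rw [zpow_one, ins_of_ne x0 σ hx]
    have hpow : ∀ (n : ℕ) (x : α), (ins x0 σ).SameCycle (some x) (some ((σ ^ n) x)) := by
      intro n
      induction n with
      | zero => intro x; exact Perm.SameCycle.refl _ _
      | succ n ih =>
        intro x
        rw [pow_succ', Perm.mul_apply]
        exact (ih x).trans (h1 _)
    have hsome : ∀ x y, (ins x0 σ).SameCycle (some x) (some y) := by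
      intro x y
      obtain ⟨n, hn⟩ := (h x y).exists_nat_pow_eq
      rw [← hn]
      exact hpow n x
    have hnone : (ins x0 σ).SameCycle none (some (σ x0)) :=
      ⟨1, by rw [zpow_one, ins_none]⟩
    intro v w
    cases v with
    | none =>
      cases w with
      | none => exact Perm.SameCycle.refl _ _
      | some y => exact hnone.trans (hsome _ _)
    | some x =>
      cases w with
      | none => exact (hsome _ _).trans hnone.symm
      | some y => exact hsome _ _

end ins

theorem cyc_option {α : Type} [Fintype α] [DecidableEq α] [Nonempty α]
    (c f : Option α → Fin 3) :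
    cyc c f = ∑ x0 ∈ univ.filter (fun x : α => f (some x) = c none),
      cyc (fun x => c (some x)) (Function.update (fun x => f (some x)) x0 (f none)) := by
  classical
  have h1 : ∑ x0 ∈ univ.filter (fun x : α => f (some x) = c none),
      cyc (fun x => c (some x)) (Function.update (fun x => f (some x)) x0 (f none)) =
      ∑ x0 : {x : α // f (some x) = c none},
        cyc (fun x => c (some x)) (Function.update (fun x => f (some x)) x0.1 (f none)) := by
    rw [Finset.sum_subtype (p := fun x : α => f (some x) = c none)]
    simp
  rw [h1]
  unfold cyc
  rw [← Nat.card_sigma]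
  symm
  refine Nat.card_congr (Equiv.ofBijective (fun p => ⟨ins p.1.1 p.2.1, ?_, ?_⟩) ⟨?_, ?_⟩)
  · exact (single_ins _ _).2 p.2.2.1
  · intro v
    have hp := p.2.2.2
    cases v with
    | none =>
      rw [ins_none]
      have := hp p.1.1
      rwa [Function.update_self] at this
    | some x =>
      by_cases hx : x = p.1.1
      · rw [hx, ins_self]
        exact p.1.2.symm
      · rw [ins_of_ne _ _ hx]
        have := hp x
        rwa [Function.update_of_ne hx] at this
  · rintro ⟨⟨x, hx⟩, ⟨σ, hσ⟩⟩ ⟨⟨y, hy⟩, ⟨ρ, hρ⟩⟩ h
    have h2 : ins x σ = ins y ρ := congrArg Subtype.val h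
    have hxy : x = y := by
      by_contra hne
      have h3 := ins_self x σ
      rw [h2, ins_of_ne y ρ hne] at h3
      simp at h3
    subst hxy
    have h4 : σ = ρ := by
      unfold ins at h2
      exact optionCongr_injective (mul_right_cancel h2)
    subst h4
    rfl
  · rintro ⟨τ, hτ, hc⟩
    obtain ⟨a⟩ := ‹Nonempty α›
    have hnn : τ⁻¹ none ≠ none := by
      intro h
      have h5 : τ none = none := by
        rw [Perm.inv_eq_iff_eq] at h
        exact h.symm
      have h6 : ∀ n : ℕ, (τ ^ n) none = none := by
        intro n
        induction n with
        | zero => simp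
        | succ n ih => rw [pow_succ', Perm.mul_apply, ih, h5]
      obtain ⟨n, hn⟩ := (hτ none (some a)).exists_nat_pow_eq
      rw [h6] at hn
      simp at hn
    obtain ⟨x0, hx0⟩ := Option.ne_none_iff_exists.1 hnn
    have hx0' : τ (some x0) = none := by
      rw [hx0]; simp
    set e : Perm (Option α) := τ * swap none (some x0) with he
    have hen : e none = none := by
      rw [he, Perm.mul_apply, swap_apply_left, hx0']
    set σ : Perm α := removeNone e with hσ
    have hσe : optionCongr σ = e := by
      ext1 v
      cases v with
      | none => rw [hen]; simp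
      | some x =>
        rw [optionCongr_apply, Option.map_some]
        have : ∃ x', e (some x) = some x' := by
          cases h7 : e (some x) with
          | none =>
            exact absurd (e.injective (h7.trans hen.symm)) (by simp)
          | some x' => exact ⟨x', rfl⟩
        exact removeNone_some e this
    have hτe : ins x0 σ = τ := by
      unfold ins
      rw [hσe, he, mul_assoc, swap_mul_self, mul_one]
    have hfx : f (some x0) = c none := by
      rw [← hc (some x0), hx0']
    have hs : Single σ := (single_ins x0 σ).1 (hτe ▸ hτ)
    refine ⟨⟨⟨x0, hfx⟩, ⟨σ, hs, ?_⟩⟩, Subtype.ext hτe⟩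
    intro x
    by_cases hx : x = x0
    · subst hx
      rw [Function.update_self, ← hc none, ← hτe, ins_none]
    · rw [Function.update_of_ne hx]
      have := hc (some x)
      rw [← hτe, ins_of_ne x0 σ hx] at this
      exact this

end Pool.Agent.Q221.Lift
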