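import Pool.Agent.Q221.Lift.Core
import Mathlib.Tactic

/-!
# Counting cyclic permutations with prescribed target classes: the formula
-/

set_option autoImplicit false

namespace Pool.Agent.Q221.Lift

open Equiv Finset

/-- unit matrix -/
def dl (u v a b : Fin 3) : ℤ := if u = a ∧ v = b then 1 else 0

/-- number of points of class `a` with target class `b` -/
def mm {V : Type} [Fintype V] (c f : V → Fin 3) (a b : Fin 3) : ℤ :=
  ∑ v, dl (c v) (f v) a b

/-- size of the class `a` -/
def cl {V : Type} [Fintype V] (c : V → Fin 3) (a : Fin 3) : ℕ :=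
  (univ.filter (fun v => c v = a)).card

/-- number of in-trees with root `r` -/
def tR (r : Fin 3) (m : Fin 3 → Fin 3 → ℤ) : ℤ :=
  m (r + 1) r * m (r + 2) r + m (r + 1) r * m (r + 2) (r + 1) + m (r + 1) (r + 2) * m (r + 2) r

/-- balanced -/
def Bal (m : Fin 3 → Fin 3 → ℤ) : Prop := ∀ a, ∑ b, m a b = ∑ b, m b a

theorem tR_eq (m : Fin 3 → Fin 3 → ℤ) (h : Bal m) (r : Fin 3) : tR r m = tR 0 m := by
  have h0 := h 0
  have h1 := h 1
  have h2 := h 2
  simp only [Fin.sum_univ_three] at h0 h1 h2
  fin_cases r
  · rfl
  · simp [tR]
    linear_combination (-(m 2 0)) * h1 + m 2 1 * h0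
  · simp [tR]
    linear_combination (-(m 1 0)) * h2 + m 1 2 * h0

theorem row_mm {V : Type} [Fintype V] (c f : V → Fin 3) (a : Fin 3) :
    ∑ b, mm c f a b = cl c a := by
  unfold mm cl
  rw [Finset.sum_comm, Finset.card_filter]
  push_cast
  refine Finset.sum_congr rfl fun v _ => ?_
  unfold dl
  by_cases h : c v = a
  · simp [h]
  · simp [h]

theorem col_mm {V : Type} [Fintype V] (c f : V → Fin 3) (b : Fin 3) :
    ∑ a, mm c f a b = cl f b := by
  unfold mm cl
  rw [Finset.sum_comm, Finset.card_filter]
  push_cast
  refine Finset.sum_congr rfl fun v _ => ?_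
  unfold dl
  by_cases h : f v = b
  · simp [h]
  · simp [h]

/-- the modified matrix -/
def md (m : Fin 3 → Fin 3 → ℤ) (y z p a b : Fin 3) : ℤ :=
  m a b - dl y z a b - dl p y a b + dl p z a b

theorem bal_md (m : Fin 3 → Fin 3 → ℤ) (h : Bal m) (y z p : Fin 3) : Bal (md m y z p) := by
  have key : ∀ y z p a : Fin 3, - ∑ b, dl y z a b - ∑ b, dl p y a b + ∑ b, dl p z a b =
      - ∑ b, dl y z b a - ∑ b, dl p y b a + ∑ b, dl p z b a := by
    unfold dl
    decide
  intro a
  have h1 := h a
  have h2 := key y z p a
  unfold md
  simp only [Finset.sum_add_distrib, Finset.sum_sub_distrib]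
  linarith

theorem key_identity (m : Fin 3 → Fin 3 → ℤ) (y z : Fin 3) :
    ∑ p, (m p y - dl y z p y) * tR y (md m y z p) = (∑ p, m p y - 1) * tR y m := by
  fin_cases y <;> fin_cases z <;> simp [Fin.sum_univ_three, tR, md, dl] <;> ring

theorem mm_option {α : Type} [Fintype α] (c f : Option α → Fin 3) (a b : Fin 3) :
    mm (fun x => c (some x)) (fun x => f (some x)) a b = mm c f a b - dl (c none) (f none) a b := by
  unfold mm
  rw [Fintype.sum_option]
  ring

theorem mm_update {α : Type} [Fintype α] [DecidableEq α] (c f : α → Fin 3) (x0 : α) (z a b : Fin 3) :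
    mm c (Function.update f x0 z) a b =
      mm c f a b - dl (c x0) (f x0) a b + dl (c x0) z a b := by
  unfold mm
  rw [← Finset.add_sum_erase univ _ (mem_univ x0), ← Finset.add_sum_erase univ _ (mem_univ x0)]
  have : ∑ x ∈ univ.erase x0, dl (c x) (Function.update f x0 z x) a b =
      ∑ x ∈ univ.erase x0, dl (c x) (f x) a b := by
    refine Finset.sum_congr rfl fun x hx => ?_
    rw [Function.update_of_ne (Finset.ne_of_mem_erase hx)]
  rw [this, Function.update_self]
  ring

theorem cl_option {α : Type} [Fintype α] (c : Option α → Fin 3) (a : Fin 3) :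
    (cl c a : ℤ) = (if c none = a then 1 else 0) + cl (fun x => c (some x)) a := by
  unfold cl
  rw [Finset.card_filter, Finset.card_filter, Fintype.sum_option]
  push_cast
  rfl

theorem cl_conj {V W : Type} [Fintype V] [Fintype W] (e : V ≃ W) (c : V → Fin 3) (a : Fin 3) :
    cl (c ∘ e.symm) a = cl c a := by
  unfold cl
  rw [Finset.card_filter, Finset.card_filter]
  exact Equiv.sum_comp e.symm (fun v => if c v = a then 1 else 0)

theorem mm_conj {V W : Type} [Fintype V] [Fintype W] (e : V ≃ W) (c f : V → Fin 3) (a b : Fin 3) :
    mm (c ∘ e.symm) (f ∘ e.symm) a b = mm c f a b := by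
  unfold mm
  exact Equiv.sum_comp e.symm (fun v => dl (c v) (f v) a b)

set_option maxRecDepth 100000 in
theorem perm3_six : ∀ τ : Perm (Fin 3), τ ^ 6 = 1 := by decide

/-- decidable form of `Single` on three points -/
def S3 (τ : Perm (Fin 3)) : Prop := ∀ x y, ∃ k : Fin 3, (τ ^ (k : ℕ)) x = y

instance : DecidablePred S3 := fun τ => by unfold S3; infer_instance

set_option maxRecDepth 100000 in
theorem S3_aux : ∀ τ : Perm (Fin 3), (∀ x y, ∃ k : Fin 6, (τ ^ (k : ℕ)) x = y) → S3 τ := by
  unfold S3
  decide

theorem single_three (τ : Perm (Fin 3)) : Single τ ↔ S3 τ := by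
  constructor
  · intro h
    apply S3_aux
    intro x y
    obtain ⟨n, hn⟩ := (h x y).exists_nat_pow_eq
    refine ⟨⟨n % 6, Nat.mod_lt _ (by norm_num)⟩, ?_⟩
    rw [← hn]
    conv_rhs => rw [← Nat.div_add_mod n 6, pow_add, pow_mul, perm3_six τ, one_pow, one_mul]
  · intro h x y
    obtain ⟨k, hk⟩ := h x y
    exact ⟨(k : ℕ), by simpa using hk⟩

set_option maxRecDepth 1000000 in
theorem base_perm : ∀ σ : Perm (Fin 3),
    ((if S3 σ then 1 else 0 : ℕ) : ℤ) = tR 0 (mm id σ) := by
  unfold tR mm dl
  decide

/-- base case: three points -/
theorem base_three (g : Fin 3 → Fin 3) (hg : Function.Injective g) :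
    (cyc id g : ℤ) = tR 0 (mm id g) := by
  classical
  set σ : Perm (Fin 3) := Equiv.ofBijective g (Finite.injective_iff_bijective.1 hg) with hσ
  have hg' : g = σ := by ext1 v; rfl
  rw [hg', ← base_perm]
  congr 1
  unfold cyc
  by_cases h : S3 σ
  · rw [if_pos h]
    have : Unique {τ : Perm (Fin 3) // Single τ ∧ ∀ v, id (τ v) = σ v} :=
      { default := ⟨σ, (single_three σ).2 h, fun v => rfl⟩
        uniq := by
          rintro ⟨τ, h1, h2⟩
          apply Subtype.ext
          ext1 v
          exact h2 v }
    exact Nat.card_unique
  · rw [if_neg h]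
    have : IsEmpty {τ : Perm (Fin 3) // Single τ ∧ ∀ v, id (τ v) = σ v} := by
      constructor
      rintro ⟨τ, h1, h2⟩
      apply h
      have : τ = σ := by
        ext1 v
        exact h2 v
      rw [← this]
      exact (single_three τ).1 h1
    exact Nat.card_of_isEmpty

/-- **the formula** -/
theorem cyc_formula : ∀ (N : ℕ) (V : Type) [Fintype V] [DecidableEq V], Fintype.card V = N →
    ∀ c f : V → Fin 3, (∀ y, cl c y = cl f y) → (∀ y, 1 ≤ cl c y) →
      (cyc c f : ℤ) = tR 0 (mm c f) * ∏ y, ((Nat.factorial (cl c y - 1) : ℕ) : ℤ) := by
  intro N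
  induction N with
  | zero =>
    intro V _ _ hV c f _ hpos
    have := hpos 0
    unfold cl at this
    rw [Fintype.card_eq_zero_iff] at hV
    simp at this
  | succ N ih =>
    intro V _ _ hV c f hbal hpos
    by_cases hone : ∀ y, cl c y = 1
    · have hinj : Function.Injective c := by
        intro v w hvw
        have := hone (c v)
        unfold cl at this
        rw [Finset.card_eq_one] at this
        obtain ⟨u, hu⟩ := this
        have h1 : v ∈ univ.filter (fun v' => c v' = c v) := by simp
        have h2 : w ∈ univ.filter (fun v' => c v' = c v) := by simp [hvw]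
        rw [hu, mem_singleton] at h1 h2
        rw [h1, h2]
      have hsur : Function.Surjective c := by
        intro y
        have := hone y
        unfold cl at this
        rw [Finset.card_eq_one] at this
        obtain ⟨u, hu⟩ := this
        have h1 : u ∈ univ.filter (fun v' => c v' = y) := by rw [hu]; simp
        exact ⟨u, by simpa using h1⟩
      have hinjf : Function.Injective f := by
        intro v w hvw
        have := hbal (f v)
        rw [hone] at this
        unfold cl at this
        obtain ⟨u, hu⟩ := Finset.card_eq_one.1 this.symm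
        have h1 : v ∈ univ.filter (fun v' => f v' = f v) := by simp
        have h2 : w ∈ univ.filter (fun v' => f v' = f v) := by simp [hvw]
        rw [hu, mem_singleton] at h1 h2
        rw [h1, h2]
      let e : V ≃ Fin 3 := Equiv.ofBijective c ⟨hinj, hsur⟩
      rw [cyc_congr e c f]
      have hc : c ∘ e.symm = id := by
        ext1 y
        exact e.apply_symm_apply y
      have hm : mm c f = mm id (f ∘ e.symm) := by
        funext a b
        rw [← mm_conj e c f, hc]
      rw [hc, hm, base_three (f ∘ e.symm) (hinjf.comp e.symm.injective)]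
      simp [hone]
    · push Not at hone
      obtain ⟨y, hy⟩ := hone
      have hy2 : 2 ≤ cl c y := by
        have := hpos y
        omega
      obtain ⟨v, hv⟩ : ∃ v, c v = y := by
        have h1 : 0 < (univ.filter (fun v => c v = y)).card := by
          have := hpos y
          unfold cl at this
          omega
        obtain ⟨v, hv⟩ := Finset.card_pos.1 h1
        exact ⟨v, by simpa using hv⟩
      let α := {x // x ≠ v}
      let e : V ≃ Option α := (Equiv.optionSubtypeNe v).symm
      set c' : Option α → Fin 3 := c ∘ e.symm with hc'
      set f' : Option α → Fin 3 := f ∘ e.symm with hf'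
      have hbal' : ∀ y, cl c' y = cl f' y := by
        intro y
        rw [hc', hf', cl_conj, cl_conj, hbal]
      have hclc : ∀ y, cl c y = cl c' y := fun y => (cl_conj e c y).symm
      have hmc : mm c f = mm c' f' := by
        funext a b
        rw [hc', hf', mm_conj]
      have hcn : c' none = y := by
        change c ((Equiv.optionSubtypeNe v) none) = y
        rw [Equiv.optionSubtypeNe_none]
        exact hv
      have hcard : Fintype.card α = N := by
        have h1 : Fintype.card V = Fintype.card (Option α) := Fintype.card_congr e
        rw [Fintype.card_option, hV] at h1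
        omega
      rw [cyc_congr e c f, ← hc', ← hf', hmc]
      simp only [hclc] at hy2 hpos ⊢
      clear_value c' f'
      clear hclc hmc hc' hf' hv hbal
      have hne : Nonempty α := by
        have h1 := cl_option c' y
        rw [if_pos hcn] at h1
        have h2 : 0 < cl (fun x => c' (some x)) y := by
          have : (2 : ℤ) ≤ cl c' y := by exact_mod_cast hy2
          omega
        unfold cl at h2
        obtain ⟨x, _⟩ := Finset.card_pos.1 h2
        exact ⟨x⟩
      rw [cyc_option c' f']
      set z : Fin 3 := f' none with hz
      set m : Fin 3 → Fin 3 → ℤ := mm c' f' with hm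
      -- data of the small systems
      have hmm : ∀ x0 : α, f' (some x0) = c' none →
          mm (fun x => c' (some x)) (Function.update (fun x => f' (some x)) x0 z) =
            md m y z (c' (some x0)) := by
        intro x0 hx0
        funext a b
        rw [mm_update, mm_option, ← hm, hx0, hcn, ← hz]
        rfl
      have hclα : ∀ a, (cl (fun x => c' (some x)) a : ℤ) = cl c' a - (if y = a then 1 else 0) := by
        intro a
        rw [cl_option c' a, hcn]
        ring
      have hmbal : Bal m := by
        intro a
        rw [hm, row_mm, col_mm, hbal']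
      have hbmd : ∀ p, Bal (md m y z p) := fun p => bal_md m hmbal y z p
      have hIH : ∀ x0 : α, f' (some x0) = c' none →
          (cyc (fun x => c' (some x)) (Function.update (fun x => f' (some x)) x0 z) : ℤ) =
            tR y (md m y z (c' (some x0))) *
              ∏ a, ((Nat.factorial (cl (fun x => c' (some x)) a - 1) : ℕ) : ℤ) := by
        intro x0 hx0
        have hb : ∀ a, cl (fun x => c' (some x)) a =
            cl (Function.update (fun x => f' (some x)) x0 z) a := by
          intro a
          have h1 := hbmd (c' (some x0)) a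
          rw [← hmm x0 hx0, row_mm, col_mm] at h1
          exact_mod_cast h1
        rw [ih α hcard (fun x => c' (some x)) (Function.update (fun x => f' (some x)) x0 z) hb ?_,
          hmm x0 hx0, tR_eq _ (hbmd _) y]
        intro a
        have h1 := hclα a
        by_cases ha : y = a
        · subst ha
          rw [if_pos rfl] at h1
          have : (2 : ℤ) ≤ cl c' y := by exact_mod_cast hy2
          omega
        · rw [if_neg ha] at h1
          have := hpos a
          omega
      push_cast
      rw [Finset.sum_congr rfl (fun x0 hx0 => hIH x0 (by simpa using hx0)), ← Finset.sum_mul]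
      -- group by class
      have hgroup : ∑ x0 ∈ univ.filter (fun x : α => f' (some x) = c' none),
          tR y (md m y z (c' (some x0))) =
          ∑ p, (m p y - dl y z p y) * tR y (md m y z p) := by
        have h1 : ∀ p, m p y - dl y z p y =
            mm (fun x => c' (some x)) (fun x => f' (some x)) p y := by
          intro p
          rw [mm_option, hcn, ← hz]
        simp_rw [h1]
        unfold mm
        simp_rw [Finset.sum_mul]
        rw [Finset.sum_comm, Finset.sum_filter]
        refine Finset.sum_congr rfl fun x _ => ?_
        rw [hcn]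
        unfold dl
        by_cases hx : f' (some x) = y
        · simp [hx]
        · simp [hx]
      have hcol : ∑ p, m p y = cl c' y := by
        rw [hm, col_mm, hbal']
      rw [hgroup, key_identity, tR_eq m hmbal y, hcol]
      -- factorials
      have hprod : ((cl c' y : ℤ) - 1) *
          ∏ a, ((Nat.factorial (cl (fun x => c' (some x)) a - 1) : ℕ) : ℤ) =
          ∏ a, ((Nat.factorial (cl c' a - 1) : ℕ) : ℤ) := by
        rw [← Finset.mul_prod_erase univ _ (mem_univ y), ← Finset.mul_prod_erase univ
          (fun a => ((Nat.factorial (cl c' a - 1) : ℕ) : ℤ)) (mem_univ y), ← mul_assoc]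
        congr 1
        · have h1 := hclα y
          rw [if_pos rfl] at h1
          obtain ⟨k, hk⟩ : ∃ k, cl c' y = k + 2 := ⟨cl c' y - 2, by omega⟩
          have h2 : cl (fun x => c' (some x)) y = k + 1 := by
            rw [hk] at h1
            push_cast at h1
            omega
          rw [h2, hk]
          simp only [Nat.add_sub_cancel, show k + 2 - 1 = k + 1 from rfl, Nat.factorial_succ]
          push_cast
          ring
        · refine Finset.prod_congr rfl fun a ha => ?_
          have h1 := hclα a
          rw [if_neg (Finset.ne_of_mem_erase ha).symm] at h1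
          have h2 : cl (fun x => c' (some x)) a = cl c' a := by
            have : ((cl (fun x => c' (some x)) a : ℕ) : ℤ) = ((cl c' a : ℕ) : ℤ) := by rw [h1]; ring
            exact_mod_cast this
          rw [h2]
      rw [← hprod]
      ring

end Pool.Agent.Q221.Lift
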