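import Pool.Agent.Q221.Lift.Count
import Mathlib.Combinatorics.Digraph.Basic
import Mathlib.GroupTheory.Perm.Finite

/-!
# First moment of the number of Hamilton cycles in random lifts of the complete digraph on three
vertices
-/

set_option autoImplicit false

namespace Pool.Agent.Q221.Lift

open Equiv Finset

/-- permutations with prescribed values on a set -/
theorem perm_ext_card {α : Type} [Fintype α] [DecidableEq α] (s : Finset α) (g : α → α) :
    (univ.filter (fun π : Perm α => ∀ i ∈ s, π i = g i)).card ≤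
      Nat.factorial (Fintype.card α - s.card) := by
  rcases (univ.filter (fun π : Perm α => ∀ i ∈ s, π i = g i)).eq_empty_or_nonempty with h | h
  · rw [h]; simp
  · obtain ⟨π0, h0⟩ := h
    have h0' : ∀ i ∈ s, π0 i = g i := by simpa using h0
    have h1 : (univ.filter (fun π : Perm α => ∀ i ∈ s, π i = g i)).card ≤
        (univ.filter (fun π : Perm α => ∀ a, ¬ (a ∉ s) → π a = a)).card := by
      refine Finset.card_le_card_of_injOn (fun π => π0⁻¹ * π) ?_ ?_
      · intro π hπ
        have hπ' : ∀ i ∈ s, π i = g i := by simpa using hπ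
        simp only [coe_filter, mem_univ, true_and, Set.mem_ofPred_eq, not_not]
        intro a ha
        rw [Perm.mul_apply, hπ' a ha, ← h0' a ha]
        simp
      · intro π _ ρ _ h
        exact mul_left_cancel h
    have h2 : (univ.filter (fun π : Perm α => ∀ a, ¬ (a ∉ s) → π a = a)).card =
        Nat.factorial (Fintype.card α - s.card) := by
      rw [← Fintype.card_subtype, ← Fintype.card_congr (Perm.subtypeEquivSubtypePerm (fun a => a ∉ s)),
        Fintype.card_perm, Fintype.card_subtype]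
      congr 1
      rw [Finset.filter_not, Finset.card_sdiff_of_subset (Finset.filter_subset _ _)]
      simp
    exact h1.trans h2.le

/-- arcs of the complete digraph on three vertices -/
abbrev Arc := {e : Fin 3 × Fin 3 // e.1 ≠ e.2}

/-- there is an arc from `u` to `v` in the lift -/
def adj {n : ℕ} (M : Arc → Perm (Fin n)) (u v : Fin 3 × Fin n) : Prop :=
  ∃ h : u.1 ≠ v.1, M ⟨(u.1, v.1), h⟩ u.2 = v.2

/-- the points of fibre `x` whose image lies in fibre `y` -/
def pts {n : ℕ} (f : Fin 3 × Fin n → Fin 3) (x y : Fin 3) : Finset (Fin n) :=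
  univ.filter (fun i => f (x, i) = y)

/-- the weight -/
def wt {n : ℕ} (f : Fin 3 × Fin n → Fin 3) : ℕ :=
  ∏ e : Arc, Nat.factorial (n - (pts f e.1.1 e.1.2).card)

open Classical in
theorem count_ext {n : ℕ} (τ : Perm (Fin 3 × Fin n)) :
    (univ.filter (fun M : Arc → Perm (Fin n) => ∀ v, adj M v (τ v))).card ≤
      wt (fun v => (τ v).1) := by
  have h1 : univ.filter (fun M : Arc → Perm (Fin n) => ∀ v, adj M v (τ v)) ⊆
      Fintype.piFinset (fun e : Arc => univ.filter (fun π : Perm (Fin n) =>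
        ∀ i ∈ pts (fun v => (τ v).1) e.1.1 e.1.2, π i = (τ (e.1.1, i)).2)) := by
    intro M hM
    have hM' : ∀ v, adj M v (τ v) := by simpa using hM
    rw [Fintype.mem_piFinset]
    rintro ⟨⟨x, y⟩, hxy⟩
    simp only [mem_filter, mem_univ, true_and, pts]
    intro i hi
    obtain ⟨h2, h3⟩ := hM' (x, i)
    subst hi
    exact h3
  refine (Finset.card_le_card h1).trans ?_
  rw [Fintype.card_piFinset]
  unfold wt
  refine Finset.prod_le_prod' fun e _ => ?_
  have := perm_ext_card (pts (fun v => (τ v).1) e.1.1 e.1.2) (fun i => (τ (e.1.1, i)).2)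
  simpa using this

open Classical in
/-- first moment -/
theorem first_moment (n : ℕ) :
    (univ.filter (fun M : Arc → Perm (Fin n) =>
      ∃ τ : Perm (Fin 3 × Fin n), Single τ ∧ ∀ v, adj M v (τ v))).card ≤
      ∑ f ∈ univ.filter (fun f : Fin 3 × Fin n → Fin 3 => ∀ v, f v ≠ v.1),
        wt f * cyc (Prod.fst : Fin 3 × Fin n → Fin 3) f := by
  have h1 : (univ.filter (fun M : Arc → Perm (Fin n) =>
      ∃ τ : Perm (Fin 3 × Fin n), Single τ ∧ ∀ v, adj M v (τ v))) ⊆
      (univ.filter (fun τ : Perm (Fin 3 × Fin n) => Single τ ∧ ∀ v, (τ v).1 ≠ v.1)).biUnion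
        (fun τ => univ.filter (fun M : Arc → Perm (Fin n) => ∀ v, adj M v (τ v))) := by
    intro M hM
    obtain ⟨-, τ, h2, h3⟩ := Finset.mem_filter.1 hM
    rw [Finset.mem_biUnion]
    refine ⟨τ, ?_, Finset.mem_filter.2 ⟨mem_univ _, h3⟩⟩
    simp only [mem_filter, mem_univ, true_and]
    exact ⟨h2, fun v => (h3 v).1.symm⟩
  refine (Finset.card_le_card h1).trans (Finset.card_biUnion_le.trans ?_)
  refine (Finset.sum_le_sum fun τ _ => count_ext τ).trans ?_
  have h2 : ∀ τ ∈ univ.filter (fun τ : Perm (Fin 3 × Fin n) => Single τ ∧ ∀ v, (τ v).1 ≠ v.1),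
      (fun v => (τ v).1) ∈ univ.filter (fun f : Fin 3 × Fin n → Fin 3 => ∀ v, f v ≠ v.1) := by
    intro τ hτ
    simp only [mem_filter, mem_univ, true_and] at hτ ⊢
    exact hτ.2
  rw [← Finset.sum_fiberwise_of_maps_to h2]
  refine Finset.sum_le_sum fun f _ => ?_
  have h3 : ∀ τ ∈ (univ.filter (fun τ : Perm (Fin 3 × Fin n) =>
      Single τ ∧ ∀ v, (τ v).1 ≠ v.1)).filter (fun τ => (fun v => (τ v).1) = f),
      wt (fun v => (τ v).1) = wt f := by
    intro τ hτ
    rw [(Finset.mem_filter.1 hτ).2]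
  rw [Finset.sum_congr rfl h3, Finset.sum_const, smul_eq_mul, mul_comm]
  refine Nat.mul_le_mul_left _ ?_
  unfold cyc
  rw [Nat.card_eq_fintype_card, Fintype.card_subtype]
  refine Finset.card_le_card ?_
  intro τ hτ
  simp only [mem_filter, mem_univ, true_and] at hτ ⊢
  exact ⟨hτ.1.1, fun v => congrFun hτ.2 v⟩

/-- the target function of a triple of sets -/
def tgt {n : ℕ} (S : Fin 3 → Finset (Fin n)) (v : Fin 3 × Fin n) : Fin 3 :=
  if v.2 ∈ S v.1 then v.1 + 1 else v.1 + 2

theorem sum_tgt {n : ℕ} (G : (Fin 3 × Fin n → Fin 3) → ℕ) :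
    ∑ f ∈ univ.filter (fun f : Fin 3 × Fin n → Fin 3 => ∀ v, f v ≠ v.1), G f =
      ∑ S : Fin 3 → Finset (Fin n), G (tgt S) := by
  refine Finset.sum_nbij' (fun f x => univ.filter (fun i => f (x, i) = x + 1)) (fun S => tgt S)
    ?_ ?_ ?_ ?_ ?_
  · intro f _; exact mem_univ _
  · intro S _
    simp only [mem_filter, mem_univ, true_and]
    intro v
    unfold tgt
    have h1 : ∀ x : Fin 3, x + 1 ≠ x := by decide
    have h2 : ∀ x : Fin 3, x + 2 ≠ x := by decide
    split_ifs
    · exact h1 _
    · exact h2 _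
  · intro f hf
    have hf' : ∀ v, f v ≠ v.1 := by simpa using hf
    funext v
    unfold tgt
    have h3 : ∀ x y : Fin 3, y ≠ x → y ≠ x + 1 → x + 2 = y := by decide
    by_cases h : f v = v.1 + 1
    · rw [if_pos (by simpa using h), h]
    · rw [if_neg (by simpa using h)]
      exact h3 _ _ (hf' v) h
  · intro S _
    funext x
    ext i
    simp only [mem_filter, mem_univ, true_and, tgt]
    have h4 : ∀ x : Fin 3, x + 2 ≠ x + 1 := by decide
    by_cases h : i ∈ S x
    · simp [h]
    · simp [h, h4 x]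
  · intro f hf
    have hf' : ∀ v, f v ≠ v.1 := by simpa using hf
    congr 1
    funext v
    unfold tgt
    have h3 : ∀ x y : Fin 3, y ≠ x → y ≠ x + 1 → y = x + 2 := by decide
    by_cases h : f v = v.1 + 1
    · rw [if_pos (by simpa using h), h]
    · rw [if_neg (by simpa using h)]
      exact h3 _ _ (hf' v) h

theorem pts_succ {n : ℕ} (S : Fin 3 → Finset (Fin n)) (x : Fin 3) :
    pts (tgt S) x (x + 1) = S x := by
  ext i
  simp only [pts, mem_filter, mem_univ, true_and, tgt]
  have h4 : ∀ x : Fin 3, x + 2 ≠ x + 1 := by decide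
  by_cases h : i ∈ S x
  · simp [h]
  · simp [h, h4 x]

theorem pts_pred {n : ℕ} (S : Fin 3 → Finset (Fin n)) (x : Fin 3) :
    pts (tgt S) x (x + 2) = (S x)ᶜ := by
  ext i
  simp only [pts, mem_filter, mem_univ, true_and, tgt, mem_compl]
  have h4 : ∀ x : Fin 3, x + 1 ≠ x + 2 := by decide
  by_cases h : i ∈ S x
  · simp [h, h4 x]
  · simp [h]

theorem pts_self {n : ℕ} (S : Fin 3 → Finset (Fin n)) (x : Fin 3) :
    pts (tgt S) x x = ∅ := by
  ext i
  simp only [pts, mem_filter, mem_univ, true_and, tgt, notMem_empty, iff_false]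
  have h1 : ∀ x : Fin 3, x + 1 ≠ x := by decide
  have h2 : ∀ x : Fin 3, x + 2 ≠ x := by decide
  split_ifs
  · exact h1 _
  · exact h2 _

theorem mm_eq_pts {n : ℕ} (f : Fin 3 × Fin n → Fin 3) (x y : Fin 3) :
    mm (Prod.fst : Fin 3 × Fin n → Fin 3) f x y = (pts f x y).card := by
  unfold mm pts dl
  rw [Fintype.sum_prod_type, Finset.card_filter]
  push_cast
  rw [Finset.sum_eq_single x]
  · simp
  · intro b _ hb
    simp [hb]
  · simp

theorem cl_fst {n : ℕ} (y : Fin 3) : cl (Prod.fst : Fin 3 × Fin n → Fin 3) y = n := by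
  unfold cl
  rw [Finset.card_filter, Fintype.sum_prod_type]
  rw [Finset.sum_eq_single y]
  · simp
  · intro b _ hb
    simp [hb]
  · simp

theorem wt_tgt {n : ℕ} (S : Fin 3 → Finset (Fin n)) :
    wt (tgt S) = ∏ x, (Nat.factorial (n - (S x).card) * Nat.factorial (S x).card) := by
  unfold wt
  have h1 : ∏ e : Arc, Nat.factorial (n - (pts (tgt S) e.1.1 e.1.2).card) =
      ∏ x : Fin 3, ∏ y ∈ univ.filter (fun y => x ≠ y),
        Nat.factorial (n - (pts (tgt S) x y).card) := by
    have h2 : ∏ e : Arc, Nat.factorial (n - (pts (tgt S) e.1.1 e.1.2).card) =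
        ∏ e ∈ univ.filter (fun e : Fin 3 × Fin 3 => e.1 ≠ e.2),
          Nat.factorial (n - (pts (tgt S) e.1 e.2).card) := by
      rw [Finset.prod_subtype (p := fun e : Fin 3 × Fin 3 => e.1 ≠ e.2)]
      simp
    rw [h2, Finset.prod_filter, Fintype.prod_prod_type]
    refine Finset.prod_congr rfl fun x _ => ?_
    rw [Finset.prod_filter]
  rw [h1]
  refine Finset.prod_congr rfl fun x _ => ?_
  have h3 : ∀ x : Fin 3, univ.filter (fun y => x ≠ y) = {x + 1, x + 2} := by decide
  have h4 : ∀ x : Fin 3, x + 1 ≠ x + 2 := by decide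
  rw [h3, Finset.prod_pair (h4 x), pts_succ, pts_pred, Finset.card_compl, Fintype.card_fin]
  congr 2
  have : (S x).card ≤ n := by
    have := Finset.card_le_univ (S x)
    simpa using this
  omega

/-- a cyclic permutation with target classes `f` forces `f` to be balanced -/
theorem cyc_unbal {V : Type} [Fintype V] (c f : V → Fin 3) (h : cyc c f ≠ 0) :
    ∀ y, cl c y = cl f y := by
  intro y
  unfold cyc at h
  have h1 : Nonempty {τ : Perm V // Single τ ∧ ∀ v, c (τ v) = f v} := by
    by_contra h2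
    rw [not_nonempty_iff] at h2
    exact h Nat.card_of_isEmpty
  obtain ⟨τ, -, h2⟩ := h1
  have h3 : f = c ∘ τ := by
    funext v
    exact (h2 v).symm
  rw [h3]
  exact (cl_conj τ.symm c y).symm

theorem term_le {n : ℕ} (hn : 1 ≤ n) (S : Fin 3 → Finset (Fin n)) (a : ℕ) (ha : (S 0).card = a) :
    wt (tgt S) * cyc (Prod.fst : Fin 3 × Fin n → Fin 3) (tgt S) ≤
      if (∀ x, (S x).card = a) then
        (Nat.factorial (n - a) * Nat.factorial a) ^ 3 *
          ((a ^ 2 + a * (n - a) + (n - a) ^ 2) * Nat.factorial (n - 1) ^ 3)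
      else 0 := by
  by_cases h0 : cyc (Prod.fst : Fin 3 × Fin n → Fin 3) (tgt S) = 0
  · rw [h0, mul_zero]; exact Nat.zero_le _
  · have hbal := cyc_unbal _ _ h0
    have hcard : ∀ x, (S x).card ≤ n := by
      intro x
      have := Finset.card_le_univ (S x)
      simpa using this
    have hcol : ∀ y, (cl (tgt S) y : ℤ) = (S (y + 2)).card + (n - (S (y + 1)).card) := by
      intro y
      rw [← col_mm (Prod.fst : Fin 3 × Fin n → Fin 3) (tgt S) y]
      have h1 : ∀ g : Fin 3 → ℤ, ∑ x, g x = g y + g (y + 1) + g (y + 2) := by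
        intro g
        fin_cases y <;> simp [Fin.sum_univ_three] <;> ring
      rw [h1, mm_eq_pts, mm_eq_pts, mm_eq_pts, pts_self]
      have e1 : pts (tgt S) (y + 1) y = (S (y + 1))ᶜ := by
        have := pts_pred S (y + 1)
        have h2 : ∀ y : Fin 3, y + 1 + 2 = y := by decide
        rwa [h2] at this
      have e2 : pts (tgt S) (y + 2) y = S (y + 2) := by
        have := pts_succ S (y + 2)
        have h2 : ∀ y : Fin 3, y + 2 + 1 = y := by decide
        rwa [h2] at this
      rw [e1, e2, Finset.card_compl, Fintype.card_fin, Nat.cast_sub (hcard _)]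
      simp
      ring
    have heq : ∀ y, (S (y + 2)).card = (S (y + 1)).card := by
      intro y
      have h1 := hcol y
      rw [← hbal y, cl_fst] at h1
      omega
    have hall : ∀ x, (S x).card = a := by
      have h1 := heq 0
      have h2 := heq 1
      simp only [zero_add] at h1
      have e3 : (1 : Fin 3) + 2 = 0 := by decide
      have e4 : (1 : Fin 3) + 1 = 2 := by decide
      rw [e3, e4] at h2
      intro x
      fin_cases x
      · exact ha
      · show (S 1).card = a
        omega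
      · show (S 2).card = a
        omega
    rw [if_pos hall, wt_tgt]
    simp only [hall]
    have han : a ≤ n := ha ▸ hcard 0
    have hform := cyc_formula _ (Fin 3 × Fin n) rfl (Prod.fst : Fin 3 × Fin n → Fin 3) (tgt S) hbal
      (by intro y; rw [cl_fst]; exact hn)
    have hm : ∀ x, mm (Prod.fst : Fin 3 × Fin n → Fin 3) (tgt S) x (x + 1) = a := by
      intro x
      rw [mm_eq_pts, pts_succ, hall]
    have hm2 : ∀ x, mm (Prod.fst : Fin 3 × Fin n → Fin 3) (tgt S) x (x + 2) = n - a := by
      intro x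
      rw [mm_eq_pts, pts_pred, Finset.card_compl, Fintype.card_fin, hall, Nat.cast_sub han]
    have ht : tR 0 (mm (Prod.fst : Fin 3 × Fin n → Fin 3) (tgt S)) =
        (a : ℤ) ^ 2 + a * (n - a) + (n - a) ^ 2 := by
      have a1 := hm 1
      have a2 := hm 2
      have b1 := hm2 1
      have b2 := hm2 2
      have e1 : (1 : Fin 3) + 1 = 2 := by decide
      have e2 : (2 : Fin 3) + 1 = 0 := by decide
      have e3 : (1 : Fin 3) + 2 = 0 := by decide
      have e4 : (2 : Fin 3) + 2 = 1 := by decide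
      rw [e1] at a1
      rw [e2] at a2
      rw [e3] at b1
      rw [e4] at b2
      unfold tR
      simp only [zero_add]
      rw [a1, a2, b1, b2]
      ring
    rw [ht] at hform
    have hfin : (cyc (Prod.fst : Fin 3 × Fin n → Fin 3) (tgt S)) =
        (a ^ 2 + a * (n - a) + (n - a) ^ 2) * Nat.factorial (n - 1) ^ 3 := by
      have : ((cyc (Prod.fst : Fin 3 × Fin n → Fin 3) (tgt S) : ℕ) : ℤ) =
        (((a ^ 2 + a * (n - a) + (n - a) ^ 2) * Nat.factorial (n - 1) ^ 3 : ℕ) : ℤ) := by
        rw [hform]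
        simp only [cl_fst, Finset.prod_const, Finset.card_univ, Fintype.card_fin]
        push_cast [Nat.cast_sub han]
        ring
      exact_mod_cast this
    rw [hfin]
    simp [Finset.prod_const]

open Classical in
theorem moment_sum {n : ℕ} (hn : 1 ≤ n) :
    (univ.filter (fun M : Arc → Perm (Fin n) =>
      ∃ τ : Perm (Fin 3 × Fin n), Single τ ∧ ∀ v, adj M v (τ v))).card ≤
      (Nat.factorial n ^ 3 * Nat.factorial (n - 1) ^ 3) *
        ∑ a ∈ range (n + 1), (a ^ 2 + a * (n - a) + (n - a) ^ 2) := by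
  refine (first_moment n).trans ?_
  rw [sum_tgt (fun f => wt f * cyc (Prod.fst : Fin 3 × Fin n → Fin 3) f)]
  have hmaps : ∀ S ∈ (univ : Finset (Fin 3 → Finset (Fin n))), (S 0).card ∈ range (n + 1) := by
    intro S _
    have := Finset.card_le_univ (S 0)
    simp only [Fintype.card_fin] at this
    simp only [mem_range]
    omega
  rw [← Finset.sum_fiberwise_of_maps_to hmaps, Finset.mul_sum]
  refine Finset.sum_le_sum fun a ha => ?_
  have han : a ≤ n := by
    simp only [mem_range] at ha
    omega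
  refine (Finset.sum_le_sum fun S hS => term_le hn S a (Finset.mem_filter.1 hS).2).trans ?_
  rw [← Finset.sum_filter, Finset.sum_const, smul_eq_mul]
  have hcard : (((univ : Finset (Fin 3 → Finset (Fin n))).filter (fun S => (S 0).card = a)).filter
      (fun S => ∀ x, (S x).card = a)).card ≤ n.choose a ^ 3 := by
    have h1 : ((univ : Finset (Fin 3 → Finset (Fin n))).filter (fun S => (S 0).card = a)).filter
        (fun S => ∀ x, (S x).card = a) ⊆
        Fintype.piFinset (fun _ : Fin 3 => Finset.powersetCard a (univ : Finset (Fin n))) := by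
      intro S hS
      rw [Fintype.mem_piFinset]
      intro x
      rw [Finset.mem_powersetCard]
      exact ⟨Finset.subset_univ _, (Finset.mem_filter.1 hS).2 x⟩
    refine (Finset.card_le_card h1).trans ?_
    rw [Fintype.card_piFinset]
    simp
  refine (Nat.mul_le_mul_right _ hcard).trans (le_of_eq ?_)
  have hch := Nat.choose_mul_factorial_mul_factorial han
  calc n.choose a ^ 3 * ((Nat.factorial (n - a) * Nat.factorial a) ^ 3 *
          ((a ^ 2 + a * (n - a) + (n - a) ^ 2) * Nat.factorial (n - 1) ^ 3))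
      = (n.choose a * Nat.factorial a * Nat.factorial (n - a)) ^ 3 *
          ((a ^ 2 + a * (n - a) + (n - a) ^ 2) * Nat.factorial (n - 1) ^ 3) := by ring
    _ = _ := by rw [hch]; ring

theorem poly_sum (n : ℕ) :
    6 * ∑ a ∈ range (n + 1), (a ^ 2 + a * (n - a) + (n - a) ^ 2) = 5 * n ^ 3 + 6 * n ^ 2 + n := by
  have h1 : ∀ k : ℕ, k ≤ n + 1 →
      (6 * ∑ a ∈ range k, ((a : ℤ) ^ 2 + a * (n - a) + (n - a) ^ 2)) =
        6 * k * n ^ 2 - 3 * n * (k * (k - 1)) + k * (k - 1) * (2 * k - 1) := by
    intro k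
    induction k with
    | zero => intro _; simp
    | succ k ih =>
      intro hk
      rw [Finset.sum_range_succ, mul_add, ih (by omega)]
      push_cast
      ring
  have h2 := h1 (n + 1) le_rfl
  have h3 : ((∑ a ∈ range (n + 1), (a ^ 2 + a * (n - a) + (n - a) ^ 2) : ℕ) : ℤ) =
      ∑ a ∈ range (n + 1), ((a : ℤ) ^ 2 + a * (n - a) + (n - a) ^ 2) := by
    push_cast
    refine Finset.sum_congr rfl fun a ha => ?_
    have : a ≤ n := by
      simp only [mem_range] at ha
      omega
    rw [Nat.cast_sub this]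
  have h4 : ((6 * ∑ a ∈ range (n + 1), (a ^ 2 + a * (n - a) + (n - a) ^ 2) : ℕ) : ℤ) =
      ((5 * n ^ 3 + 6 * n ^ 2 + n : ℕ) : ℤ) := by
    rw [Nat.cast_mul, h3]
    push_cast at h2 ⊢
    linarith
  exact_mod_cast h4

open Classical in
/-- **Main bound**: at most the proportion `5/6 + 1/n + 1/(6n^2)` of all lifts is Hamiltonian. -/
theorem main_bound {n : ℕ} (hn : 1 ≤ n) :
    ((univ.filter (fun M : Arc → Perm (Fin n) =>
      ∃ τ : Perm (Fin 3 × Fin n), Single τ ∧ ∀ v, adj M v (τ v))).card : ℝ) /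
      (Fintype.card (Arc → Perm (Fin n)) : ℝ) ≤ 5 / 6 + 1 / n + 1 / (6 * (n : ℝ) ^ 2) := by
  have hcard : Fintype.card (Arc → Perm (Fin n)) = Nat.factorial n ^ 6 := by
    rw [Fintype.card_fun, Fintype.card_perm, Fintype.card_fin]
    congr 1
  have hn0 : (0 : ℝ) < n := by exact_mod_cast hn
  have hf0 : (0 : ℝ) < Nat.factorial n := by exact_mod_cast Nat.factorial_pos n
  rw [hcard]
  push_cast
  rw [div_le_iff₀ (by positivity)]
  have h1 := moment_sum hn
  have h2 := poly_sum n
  have h3 : Nat.factorial n = n * Nat.factorial (n - 1) := (Nat.mul_factorial_pred (by omega)).symm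
  set X := (univ.filter (fun M : Arc → Perm (Fin n) =>
      ∃ τ : Perm (Fin 3 × Fin n), Single τ ∧ ∀ v, adj M v (τ v))).card with hX
  set Sg := ∑ a ∈ range (n + 1), (a ^ 2 + a * (n - a) + (n - a) ^ 2) with hSg
  have h1' : (X : ℝ) ≤ (Nat.factorial n : ℝ) ^ 3 * (Nat.factorial (n - 1) : ℝ) ^ 3 * Sg := by
    exact_mod_cast h1
  have h2' : (6 : ℝ) * Sg = 5 * (n : ℝ) ^ 3 + 6 * n ^ 2 + n := by exact_mod_cast h2
  have h3' : (Nat.factorial n : ℝ) = n * Nat.factorial (n - 1) := by exact_mod_cast h3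
  refine h1'.trans (le_of_eq ?_)
  have h4 : (Sg : ℝ) = (5 * (n : ℝ) ^ 3 + 6 * n ^ 2 + n) / 6 := by linarith
  rw [h4, h3']
  field_simp

end Pool.Agent.Q221.Lift
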